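import Pool.Agent.Lib_MP_2c3e4e_an.R3

open MP2c3e4e Set
open scoped Real

namespace Pool.Agent.Results.MP_2c3e4e_an.TotallyOrdered

/-- The plane configuration of the problem, without cusps: `A`, `B` are bounded simply connected
domains with regular boundary (`Dom.Regular`), `C = A ∩ B`, the boundaries meet exactly in `ξ` and
`ξ'`, the complement of the closure of `A ∪ B` is connected, near `ξ` the sets `A` and `B` look
like two sectors with overlapping interiors which do not fill a full neighbourhood, and `ξ'` can be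
approached nontangentially from outside of `A ∪ B`. -/
structure Setting (A B C : Dom) (ξ ξ' : ℂ) : Prop where
  regA : A.Regular
  regB : B.Regular
  inter : C.carrier = A.carrier ∩ B.carrier
  ne : ξ ≠ ξ'
  corners : frontier A.carrier ∩ frontier B.carrier = {ξ, ξ'}
  outer : IsPreconnected (closure (A.carrier ∪ B.carrier))ᶜ
  sectors : ∃ τ a₁ b₁ a₂ b₂ : ℝ, τ < a₁ ∧ τ < a₂ ∧ b₁ < τ + 2 * π ∧ b₂ < τ + 2 * π ∧
    a₁ < b₁ ∧ a₂ < b₂ ∧ a₁ < b₂ ∧ a₂ < b₁ ∧
    SectorAt A.carrier ξ τ a₁ b₁ ∧ SectorAt B.carrier ξ τ a₂ b₂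
  cone : ExteriorCone (A.carrier ∪ B.carrier) ξ'

/-- The closed invariant subspaces between `E_f` and `St(E_f)` are totally ordered by inclusion
when `f_A` and `f_B` are analytic at `ξ'`. -/
theorem result {A B C : Dom} {ξ ξ' : ℂ} (h : Setting A B C ξ ξ') (f : EP A B)
    (hA : AnalyticFrom A.carrier f.fst.fn ξ') (hB : AnalyticFrom B.carrier f.snd.fn ξ')
    (E₁ E₂ : Submodule ℂ (EP A B)) (h₁ : IsLat (opM A B) E₁) (h₂ : IsLat (opM A B) E₂)
    (hf₁ : cyclic (opM A B) f ≤ E₁) (hf₂ : cyclic (opM A B) f ≤ E₂)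
    (hs₁ : (E₁ : Set (EP A B)) ⊆ standard C (cyclic (opM A B) f))
    (hs₂ : (E₂ : Set (EP A B)) ⊆ standard C (cyclic (opM A B) f)) : E₁ ≤ E₂ ∨ E₂ ≤ E₁ := by
  obtain ⟨τ, a₁, b₁, a₂, b₂, k1, k2, k3, k4, k5, k6, k7, k8, sA, sB⟩ := h.sectors
  exact comparable ⟨h.regA, h.regB, h.corners, h.outer⟩ h.ne h.cone
    ⟨⟨k1, k2, k3, k4, k5, k6, k7, k8⟩, sA, sB⟩ h.inter f hA hB h₁ h₂ hf₁ hf₂ hs₁ hs₂

end Pool.Agent.Results.MP_2c3e4e_an.TotallyOrdered
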